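import Pool.Agent.L5helper98.CG.Defs

/-!
# Gaussian integration by parts for multivariate Gaussian measures (helper79, job CG-STEIN)
-/

set_option autoImplicit false

open MeasureTheory ProbabilityTheory Filter Topology Set
open scoped ENNReal MatrixOrder

namespace Pool.Agent.L5helper79.CG

theorem hasDerivAt_pdf (t : ℝ) :
    HasDerivAt (gaussianPDFReal 0 1) (-(t * gaussianPDFReal 0 1 t)) t := by
  have h0 : gaussianPDFReal 0 1 = fun x : ℝ =>
      (√(2 * Real.pi * ((1 : NNReal) : ℝ)))⁻¹ * Real.exp (-(x - 0) ^ 2 / (2 * ((1 : NNReal) : ℝ))) := by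
    funext x
    rw [gaussianPDFReal_def]
  have h1 : HasDerivAt (fun x : ℝ => -(x - 0) ^ 2 / (2 * ((1 : NNReal) : ℝ))) (-t) t := by
    have h := (((hasDerivAt_id t).sub_const (0 : ℝ)).pow 2).neg.div_const (2 * ((1 : NNReal) : ℝ))
    refine h.congr_deriv ?_
    simp only [id, NNReal.coe_one]
    norm_num
    ring
  have h2 := (h1.exp).const_mul ((√(2 * Real.pi * ((1 : NNReal) : ℝ)))⁻¹)
  rw [h0]
  refine h2.congr_deriv ?_
  ring

theorem integrable_exp_abs (M : ℝ) :
    Integrable (fun t : ℝ => Real.exp (M * |t|)) (gaussianReal 0 1) :=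
  integrable_exp_mul_abs (X := fun t : ℝ => t) (integrable_exp_mul_gaussianReal M)
    (integrable_exp_mul_gaussianReal (-M))

theorem integrable_pdf_mul {f : ℝ → ℝ} (hf : Integrable f (gaussianReal 0 1)) :
    Integrable (fun t => gaussianPDFReal 0 1 t * f t) := by
  rw [gaussianReal_of_var_ne_zero 0 one_ne_zero,
    integrable_withDensity_iff_integrable_smul' (measurable_gaussianPDF 0 1)
      (ae_of_all _ fun x => gaussianPDF_lt_top)] at hf
  simpa [toReal_gaussianPDF] using hf

/-- Gaussian integration by parts in one variable. -/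
theorem stein1 (φ φ' : ℝ → ℝ) (hd : ∀ t, HasDerivAt φ (φ' t) t) (hc : Continuous φ') (M : ℝ)
    (hb : ∀ t, |φ t| ≤ M * Real.exp (M * |t|)) (hb' : ∀ t, |φ' t| ≤ M * Real.exp (M * |t|)) :
    ∫ t, t * φ t ∂(gaussianReal 0 1) = ∫ t, φ' t ∂(gaussianReal 0 1) := by
  have hφc : Continuous φ := continuous_iff_continuousAt.2 fun t => (hd t).continuousAt
  have i0 : Integrable φ (gaussianReal 0 1) :=
    ((integrable_exp_abs M).const_mul M).mono' hφc.aestronglyMeasurable
      (ae_of_all _ fun t => by simpa [Real.norm_eq_abs] using hb t)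
  have i1 : Integrable φ' (gaussianReal 0 1) :=
    ((integrable_exp_abs M).const_mul M).mono' hc.aestronglyMeasurable
      (ae_of_all _ fun t => by simpa [Real.norm_eq_abs] using hb' t)
  have i2 : Integrable (fun t => t * φ t) (gaussianReal 0 1) := by
    refine ((integrable_exp_abs (M + 1)).const_mul M).mono'
      (continuous_id.mul hφc).aestronglyMeasurable (ae_of_all _ fun t => ?_)
    rw [Real.norm_eq_abs, abs_mul]
    have h1 : |t| ≤ Real.exp |t| := (by linarith [Real.add_one_le_exp |t|])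
    calc |t| * |φ t| ≤ Real.exp |t| * (M * Real.exp (M * |t|)) :=
          mul_le_mul h1 (hb t) (abs_nonneg _) (Real.exp_pos _).le
      _ = M * Real.exp ((M + 1) * |t|) := by
          rw [add_mul, Real.exp_add, one_mul]; ring
  rw [integral_gaussianReal_eq_integral_smul one_ne_zero,
    integral_gaussianReal_eq_integral_smul one_ne_zero]
  have key := integral_mul_deriv_eq_deriv_mul_of_integrable (u := φ) (v := gaussianPDFReal 0 1)
    (u' := φ') (v' := fun t => -(t * gaussianPDFReal 0 1 t)) (fun x _ => hd x)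
    (fun x _ => hasDerivAt_pdf x)
    (by
      refine (integrable_pdf_mul i2).neg.congr (ae_of_all _ fun t => ?_)
      simp only [Pi.neg_apply, Pi.mul_apply]; ring)
    (by
      refine (integrable_pdf_mul i1).congr (ae_of_all _ fun t => ?_)
      simp only [Pi.mul_apply]; ring)
    (by
      refine (integrable_pdf_mul i0).congr (ae_of_all _ fun t => ?_)
      simp only [Pi.mul_apply]; ring)
  have e1 : ∫ t, gaussianPDFReal 0 1 t • (t * φ t) = -∫ x, φ x * -(x * gaussianPDFReal 0 1 x) := by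
    rw [← integral_neg]
    refine integral_congr_ae (ae_of_all _ fun t => ?_)
    simp only [smul_eq_mul]; ring
  rw [e1, key, neg_neg]
  refine integral_congr_ae (ae_of_all _ fun t => ?_)
  simp only [smul_eq_mul]; ring

/-- the standard Gaussian measure on `ℝ ^ n` as a product measure -/
noncomputable abbrev gp (n : ℕ) : Measure (Fin n → ℝ) := Measure.pi fun _ => gaussianReal 0 1

theorem integrable_exp_sum (n : ℕ) (M : ℝ) :
    Integrable (fun g : Fin n → ℝ => Real.exp (M * ∑ i, |g i|)) (gp n) := by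
  have h := Integrable.fintype_prod (f := fun (_ : Fin n) (t : ℝ) => Real.exp (M * |t|))
    (μ := fun _ => gaussianReal 0 1) (fun _ => integrable_exp_abs M)
  refine h.congr (ae_of_all _ fun g => ?_)
  simp only [← Real.exp_sum, Finset.mul_sum]

theorem integrable_of_growth {n : ℕ} {F : (Fin n → ℝ) → ℝ} (hF : Continuous F) {K : ℝ}
    (hb : ∀ g, |F g| ≤ K * Real.exp (K * ∑ i, |g i|)) : Integrable F (gp n) :=
  ((integrable_exp_sum n K).const_mul K).mono' hF.aestronglyMeasurable
    (ae_of_all _ fun g => by simpa [Real.norm_eq_abs] using hb g)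

theorem integrable_mul_of_growth {n : ℕ} {F : (Fin n → ℝ) → ℝ} (hF : Continuous F) {K : ℝ}
    (hb : ∀ g, |F g| ≤ K * Real.exp (K * ∑ i, |g i|)) (k : Fin n) :
    Integrable (fun g => g k * F g) (gp n) := by
  refine ((integrable_exp_sum n (K + 1)).const_mul K).mono'
    ((continuous_apply k).mul hF).aestronglyMeasurable (ae_of_all _ fun g => ?_)
  rw [Real.norm_eq_abs, abs_mul]
  have h0 : |g k| ≤ ∑ i, |g i| :=
    Finset.single_le_sum (f := fun i => |g i|) (fun i _ => abs_nonneg _) (Finset.mem_univ k)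
  have h1 : |g k| ≤ Real.exp (∑ i, |g i|) := by
    linarith [Real.add_one_le_exp (∑ i, |g i|)]
  calc |g k| * |F g| ≤ Real.exp (∑ i, |g i|) * (K * Real.exp (K * ∑ i, |g i|)) :=
        mul_le_mul h1 (hb g) (abs_nonneg _) (Real.exp_pos _).le
    _ = K * Real.exp ((K + 1) * ∑ i, |g i|) := by
        rw [add_mul, Real.exp_add, one_mul]; ring

theorem fubini {m : ℕ} (k : Fin (m + 1)) (F : (Fin (m + 1) → ℝ) → ℝ)
    (hF : Integrable F (gp (m + 1))) :
    ∫ g, F g ∂(gp (m + 1)) = ∫ y, ∫ t, F (k.insertNth t y) ∂(gaussianReal 0 1) ∂(gp m) := by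
  have hmp := measurePreserving_piFinSuccAbove (fun _ : Fin (m + 1) => gaussianReal 0 1) k
  have hs := hmp.symm
  have e1 : ∫ g, F g ∂(gp (m + 1)) =
      ∫ z, F ((MeasurableEquiv.piFinSuccAbove (fun _ => ℝ) k).symm z)
        ∂((gaussianReal 0 1).prod (gp m)) := (hs.integral_comp' F).symm
  rw [e1, integral_prod_symm]
  · rfl
  · exact (hs.integrable_comp_emb (MeasurableEquiv.measurableEmbedding _)).2 hF

/-- Integration by parts for the standard Gaussian measure. -/
theorem steinpi {n : ℕ} (h : (Fin n → ℝ) → ℝ) (hh : ContDiff ℝ 1 h) (K : ℝ) (hK : 0 ≤ K)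
    (k : Fin n) (hb : ∀ g, |h g| ≤ K * Real.exp (K * ∑ i, |g i|))
    (hb' : ∀ g, |fderiv ℝ h g (Pi.single k 1)| ≤ K * Real.exp (K * ∑ i, |g i|)) :
    ∫ g, g k * h g ∂(gp n) = ∫ g, fderiv ℝ h g (Pi.single k 1) ∂(gp n) := by
  obtain ⟨m, rfl⟩ : ∃ m, n = m + 1 := ⟨n - 1, by have := k.2; omega⟩
  have hc : Continuous h := hh.continuous
  have hc' : Continuous fun g => fderiv ℝ h g (Pi.single k 1) :=
    (hh.continuous_fderiv one_ne_zero).clm_apply continuous_const
  rw [fubini k _ (integrable_mul_of_growth hc hb k), fubini k _ (integrable_of_growth hc' hb')]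
  refine integral_congr_ae (ae_of_all _ fun y => ?_)
  simp only [Fin.insertNth_apply_same]
  have hins : (fun t : ℝ => k.insertNth (α := fun _ => ℝ) t y) =
      Function.update (k.insertNth (α := fun _ => ℝ) 0 y) k := by
    funext t
    exact (Fin.update_insertNth (α := fun _ => ℝ) k 0 t y).symm
  have hdi : ∀ t : ℝ, HasDerivAt (fun t : ℝ => k.insertNth (α := fun _ => ℝ) t y)
      (Pi.single k 1) t := by
    intro t
    rw [hins]
    exact hasDerivAt_update _ _ _
  have hci : Continuous (fun t : ℝ => k.insertNth (α := fun _ => ℝ) t y) :=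
    continuous_iff_continuousAt.2 fun t => (hdi t).continuousAt
  have hsum : ∀ t : ℝ, ∑ i, |(k.insertNth (α := fun _ => ℝ) t y) i| = |t| + ∑ j, |y j| := by
    intro t
    rw [Fin.sum_univ_succAbove _ k]
    simp
  set s : ℝ := ∑ j, |y j| with hs
  have hs0 : 0 ≤ s := Finset.sum_nonneg fun _ _ => abs_nonneg _
  have hM : ∀ t : ℝ, K * Real.exp (K * (|t| + s)) ≤
      (K * Real.exp (K * s) + K) * Real.exp ((K * Real.exp (K * s) + K) * |t|) := by
    intro t
    have e0 : 0 ≤ K * Real.exp (K * s) := mul_nonneg hK (Real.exp_pos _).le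
    have e1 : Real.exp (K * |t|) ≤ Real.exp ((K * Real.exp (K * s) + K) * |t|) := by
      refine Real.exp_le_exp.2 (mul_le_mul_of_nonneg_right (by linarith) (abs_nonneg _))
    calc K * Real.exp (K * (|t| + s)) = K * Real.exp (K * s) * Real.exp (K * |t|) := by
          rw [mul_add, Real.exp_add]; ring
      _ ≤ (K * Real.exp (K * s) + K) * Real.exp ((K * Real.exp (K * s) + K) * |t|) :=
          mul_le_mul (by linarith) e1 (Real.exp_pos _).le (by linarith)
  refine stein1 (fun t => h (k.insertNth (α := fun _ => ℝ) t y))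
    (fun t => fderiv ℝ h (k.insertNth (α := fun _ => ℝ) t y) (Pi.single k 1)) (fun t => ?_)
    (hc'.comp hci) (K * Real.exp (K * s) + K) (fun t => ?_) (fun t => ?_)
  · exact ((hh.differentiable one_ne_zero _).hasFDerivAt).comp_hasDerivAt t (hdi t)
  · exact ((hb _).trans_eq (by rw [hsum t])).trans (hM t)
  · exact ((hb' _).trans_eq (by rw [hsum t])).trans (hM t)

theorem integral_mvg {n : ℕ} (C : Matrix (Fin n) (Fin n) ℝ) (G : (Fin n → ℝ) → ℝ)
    (hG : Continuous G) :
    ∫ x : EuclideanSpace ℝ (Fin n), G (fun j => x j) ∂(multivariateGaussian 0 C) =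
      ∫ g, G ((CFC.sqrt C).mulVec g) ∂(gp n) := by
  have hcG : Continuous fun x : EuclideanSpace ℝ (Fin n) => G (fun j => x j) :=
    hG.comp (by fun_prop)
  have hcG2 : Continuous fun x : EuclideanSpace ℝ (Fin n) =>
      G (fun j => (0 + Matrix.toEuclideanCLM (𝕜 := ℝ) (CFC.sqrt C) x) j) :=
    hG.comp (by fun_prop)
  rw [multivariateGaussian, integral_map (by fun_prop) hcG.aestronglyMeasurable,
    ← map_pi_eq_stdGaussian, integral_map (by fun_prop) hcG2.aestronglyMeasurable]
  refine integral_congr_ae (ae_of_all _ fun g => ?_)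
  simp

theorem STEIN_holds : Pool.Agent.L5helper98.CG.St_STEIN := by
  intro n C hC f hf hgr i
  obtain ⟨K, hK⟩ := hgr
  have hK0 : 0 ≤ K := by
    have h := (abs_nonneg _).trans (hK 0).1
    exact nonneg_of_mul_nonneg_left h (Real.exp_pos _)
  set A : Matrix (Fin n) (Fin n) ℝ := CFC.sqrt C with hA
  have hAA : A * A = C := CFC.sqrt_mul_sqrt_self _ hC.nonneg
  have hsym : ∀ j k, A j k = A k j := by
    intro j k
    have h := (CFC.sqrt_nonneg C).isSelfAdjoint
    have h2 : star A = A := h
    have h3 := congrFun (congrFun h2 j) k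
    rw [Matrix.star_apply] at h3
    simpa using h3.symm
  have hc : Continuous f := hf.continuous
  have hcf' : ∀ v : Fin n → ℝ, Continuous fun x => fderiv ℝ f x v := fun v =>
    (hf.continuous_fderiv one_ne_zero).clm_apply continuous_const
  -- the linear map
  set L : (Fin n → ℝ) →L[ℝ] (Fin n → ℝ) := LinearMap.toContinuousLinearMap A.mulVecLin with hL
  have hLa : ∀ g, L g = A.mulVec g := fun g => rfl
  set a : ℝ := ∑ i, ∑ k, |A i k| with ha
  have ha0 : 0 ≤ a := Finset.sum_nonneg fun _ _ => Finset.sum_nonneg fun _ _ => abs_nonneg _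
  have hsumA : ∀ g : Fin n → ℝ, ∑ j, |A.mulVec g j| ≤ a * ∑ k, |g k| := by
    intro g
    rw [ha, Finset.sum_mul]
    refine Finset.sum_le_sum fun j _ => ?_
    rw [Finset.sum_mul]
    have h1 : |A.mulVec g j| ≤ ∑ k, |A j k * g k| :=
      Finset.abs_sum_le_sum_abs (fun k => A j k * g k) Finset.univ
    refine h1.trans (Finset.sum_le_sum fun k _ => ?_)
    rw [abs_mul]
    exact mul_le_mul_of_nonneg_left (Finset.single_le_sum (f := fun i => |g i|)
      (fun i _ => abs_nonneg _) (Finset.mem_univ k)) (abs_nonneg _)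
  have hcol : ∀ k : Fin n, A.mulVec (Pi.single k 1) = ∑ j, A j k • (Pi.single j (1 : ℝ)) := by
    intro k
    rw [Matrix.mulVec_single_one]
    funext l
    simp [Finset.sum_apply, Pi.single_apply]
  have hcoln : ∀ k : Fin n, ‖A.mulVec (Pi.single k 1)‖ ≤ a := by
    intro k
    rw [pi_norm_le_iff_of_nonneg ha0]
    intro j
    rw [Matrix.mulVec_single_one, Real.norm_eq_abs]
    exact (Finset.single_le_sum (f := fun k => |A j k|) (fun i _ => abs_nonneg _)
      (Finset.mem_univ k)).trans (Finset.single_le_sum (f := fun j => ∑ k, |A j k|)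
      (fun i _ => Finset.sum_nonneg fun _ _ => abs_nonneg _) (Finset.mem_univ j))
  set h : (Fin n → ℝ) → ℝ := fun g => f (A.mulVec g) with hh
  have hhc : ContDiff ℝ 1 h := hf.comp L.contDiff
  have hfd : ∀ g v, fderiv ℝ h g v = fderiv ℝ f (A.mulVec g) (A.mulVec v) := by
    intro g v
    have h1 : HasFDerivAt h ((fderiv ℝ f (L g)).comp L) g :=
      ((hf.differentiable one_ne_zero _).hasFDerivAt).comp g L.hasFDerivAt
    rw [h1.fderiv]
    rfl
  have hexp : ∀ g : Fin n → ℝ, Real.exp (K * ∑ j, |A.mulVec g j|) ≤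
      Real.exp ((K + K * a) * ∑ k, |g k|) := by
    intro g
    refine Real.exp_le_exp.2 ?_
    have h1 := mul_le_mul_of_nonneg_left (hsumA g) hK0
    have h2 : 0 ≤ K * ∑ k, |g k| := mul_nonneg hK0 (Finset.sum_nonneg fun _ _ => abs_nonneg _)
    nlinarith
  have hKa : 0 ≤ K * a := mul_nonneg hK0 ha0
  have hb1 : ∀ g, |h g| ≤ (K + K * a) * Real.exp ((K + K * a) * ∑ k, |g k|) := by
    intro g
    refine (hK (A.mulVec g)).1.trans ?_
    exact mul_le_mul (by linarith) (hexp g) (Real.exp_pos _).le (by linarith)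
  have hb2 : ∀ k : Fin n, ∀ g, |fderiv ℝ h g (Pi.single k 1)| ≤
      (K + K * a) * Real.exp ((K + K * a) * ∑ k, |g k|) := by
    intro k g
    rw [hfd, ← Real.norm_eq_abs]
    refine (ContinuousLinearMap.le_opNorm _ _).trans ?_
    have h1 : ‖fderiv ℝ f (A.mulVec g)‖ * ‖A.mulVec (Pi.single k 1)‖ ≤
        (K * Real.exp (K * ∑ j, |A.mulVec g j|)) * a :=
      mul_le_mul (hK _).2 (hcoln k) (norm_nonneg _) (mul_nonneg hK0 (Real.exp_pos _).le)
    refine h1.trans ?_
    calc (K * Real.exp (K * ∑ j, |A.mulVec g j|)) * a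
        = (K * a) * Real.exp (K * ∑ j, |A.mulVec g j|) := by ring
      _ ≤ (K + K * a) * Real.exp ((K + K * a) * ∑ k, |g k|) :=
        mul_le_mul (by linarith) (hexp g) (Real.exp_pos _).le (by linarith)
  -- the left side
  rw [integral_mvg C (fun x => x i * f x) ((continuous_apply i).mul hc)]
  have e1 : ∀ j, ∫ x : EuclideanSpace ℝ (Fin n), fderiv ℝ f (fun k => x k) (Pi.single j 1)
      ∂(multivariateGaussian 0 C) = ∫ g, fderiv ℝ f (A.mulVec g) (Pi.single j 1) ∂(gp n) :=
    fun j => integral_mvg C (fun x => fderiv ℝ f x (Pi.single j 1)) (hcf' _)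
  simp only [e1]
  have hint : ∀ j, Integrable (fun g => fderiv ℝ f (A.mulVec g) (Pi.single j 1)) (gp n) := by
    intro j
    refine integrable_of_growth ((hcf' _).comp L.continuous) (K := K + K * a) fun g => ?_
    rw [← Real.norm_eq_abs]
    refine (ContinuousLinearMap.le_opNorm _ _).trans ?_
    have h2 : ‖(Pi.single j (1 : ℝ) : Fin n → ℝ)‖ ≤ 1 := by
      rw [pi_norm_le_iff_of_nonneg zero_le_one]
      intro l
      by_cases hl : l = j
      · subst hl; simp
      · simp [hl]
    have h1 : ‖fderiv ℝ f (A.mulVec g)‖ * ‖(Pi.single j (1 : ℝ) : Fin n → ℝ)‖ ≤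
        (K * Real.exp (K * ∑ j, |A.mulVec g j|)) * 1 :=
      mul_le_mul (hK _).2 h2 (norm_nonneg _) (mul_nonneg hK0 (Real.exp_pos _).le)
    refine h1.trans ?_
    rw [mul_one]
    exact mul_le_mul (by linarith) (hexp g) (Real.exp_pos _).le (by linarith)
  have e2 : ∫ g, (A.mulVec g) i * f (A.mulVec g) ∂(gp n) =
      ∑ k, A i k * ∫ g, g k * h g ∂(gp n) := by
    have : ∀ g : Fin n → ℝ, (A.mulVec g) i * f (A.mulVec g) = ∑ k, A i k * (g k * h g) := by
      intro g
      simp only [Matrix.mulVec, dotProduct, Finset.sum_mul, hh]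
      refine Finset.sum_congr rfl fun k _ => ?_
      ring
    simp only [this]
    rw [integral_finsetSum _ fun k _ =>
      (integrable_mul_of_growth hhc.continuous hb1 k).const_mul _]
    simp only [integral_const_mul]
  have e3 : ∀ k, ∫ g, g k * h g ∂(gp n) =
      ∑ j, A j k * ∫ g, fderiv ℝ f (A.mulVec g) (Pi.single j 1) ∂(gp n) := by
    intro k
    rw [steinpi h hhc (K + K * a) (by linarith) k hb1 (hb2 k)]
    have : ∀ g : Fin n → ℝ, fderiv ℝ h g (Pi.single k 1) =
        ∑ j, A j k * fderiv ℝ f (A.mulVec g) (Pi.single j 1) := by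
      intro g
      rw [hfd, hcol, map_sum]
      simp
    simp only [this]
    rw [integral_finsetSum _ fun j _ => (hint j).const_mul _]
    simp only [integral_const_mul]
  show ∫ g, (A.mulVec g) i * f (A.mulVec g) ∂(gp n) = _
  rw [e2]
  simp only [e3, Finset.mul_sum]
  rw [Finset.sum_comm]
  refine Finset.sum_congr rfl fun j _ => ?_
  rw [← hAA, Matrix.mul_apply, Finset.sum_mul]
  refine Finset.sum_congr rfl fun k _ => ?_
  rw [hsym j k]
  ring

end Pool.Agent.L5helper79.CG
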